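import Mathlib
import Pool.Agent.H.MP_f1e34e_co.A

set_option autoImplicit false

namespace Pool.Agent.Results.MP_f1e34e_co.Bounded

open Finset Pool.Agent.H.MP_f1e34e_co

/-- `(r, a, b)` is a slice rank decomposition of `T` -/
def IsDec {F : Type} [Field F] {d : ℕ} {n : Fin d → ℕ} (T : (∀ j, Fin (n j)) → F)
    (r : Fin d → ℕ) (a : ∀ j, Fin (r j) → Fin (n j) → F)
    (b : ∀ j, Fin (r j) → (∀ l : {l // l ≠ j}, Fin (n l.1)) → F) : Prop :=
  ∀ x, T x = ∑ j, ∑ i, a j i (x j) * b j i (fun l => x l.1)

/-- `T` has slice rank exactly `k` -/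
def SliceRank {F : Type} [Field F] {d : ℕ} {n : Fin d → ℕ} (T : (∀ j, Fin (n j)) → F)
    (k : ℕ) : Prop :=
  IsLeast {m | ∃ r a b, IsDec T r a b ∧ ∑ j, r j = m} k

variable {F : Type} [Field F] {d : ℕ} {n : Fin d → ℕ}

noncomputable def form (T : (∀ j, Fin (n j)) → F) :
    MultilinearMap F (fun j => Fin (n j) → F) F :=
  ∑ x, T x • (MultilinearMap.mkPiAlgebra F (Fin d) F).compLinearMap
    (fun j => LinearMap.proj (x j))

theorem form_apply (T : (∀ j, Fin (n j)) → F) (u : ∀ j, Fin (n j) → F) :
    form T u = ∑ x, T x * ∏ j, u j (x j) := by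
  simp [form]

theorem form_single (T : (∀ j, Fin (n j)) → F) (x : ∀ j, Fin (n j)) :
    form T (fun j => Pi.single (x j) 1) = T x := by
  rw [form_apply, sum_eq_single x]
  · simp
  · intro y _ h
    obtain ⟨j, hj⟩ := Function.ne_iff.1 h
    rw [prod_eq_zero (mem_univ j) (by simp [hj]), mul_zero]
  · simp

theorem null_of {T : (∀ j, Fin (n j)) → F} {r : Fin d → ℕ} {a : ∀ j, Fin (r j) → Fin (n j) → F}
    {b : ∀ j, Fin (r j) → (∀ l : {l // l ≠ j}, Fin (n l.1)) → F} (h : IsDec T r a b)
    (u : ∀ j, Fin (n j) → F) (hu : ∀ j i, ∑ y, a j i y * u j y = 0) : form T u = 0 := by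
  rw [form_apply]
  simp only [h _, sum_mul]
  rw [sum_comm]
  refine sum_eq_zero fun j _ => ?_
  rw [sum_comm]
  refine sum_eq_zero fun i _ => ?_
  rw [← (Equiv.piSplitAt j fun l => Fin (n l)).symm.sum_comp, Fintype.sum_prod_type, sum_comm]
  refine sum_eq_zero fun z _ => ?_
  have : ∀ y, a j i ((Equiv.piSplitAt j fun l => Fin (n l)).symm (y, z) j) *
      b j i (fun l => (Equiv.piSplitAt j fun l => Fin (n l)).symm (y, z) l.1) *
      ∏ l, u l ((Equiv.piSplitAt j fun l => Fin (n l)).symm (y, z) l)
      = (a j i y * u j y) * (b j i z * ∏ l : {l // l ≠ j}, u l.1 (z l)) := by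
    intro y
    have e1 : (Equiv.piSplitAt j fun l => Fin (n l)).symm (y, z) j = y := by simp
    have e2 : ∀ l : {l // l ≠ j},
        (Equiv.piSplitAt j fun l => Fin (n l)).symm (y, z) l.1 = z l := by
      intro l; simp [l.2]
    rw [← mul_prod_erase univ _ (mem_univ j), prod_subtype (p := fun l => l ≠ j) (univ.erase j)
      (by simp)]
    simp only [e1, e2]
    ring
  simp only [this, ← sum_mul, hu, zero_mul]

theorem dec_of (Y : ∀ j, Submodule F (Fin (n j) → F)) (φ : ∀ j, (Fin (n j) → F) →ₗ[F] (Fin (cd (Y j)) → F))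
    (g : ∀ j, (Fin (cd (Y j)) → F) →ₗ[F] (Fin (n j) → F)) (h1 : ∀ j e, φ j (g j e) = e)
    (h2 : ∀ j w, φ j w = 0 ↔ w ∈ Y j) (S : Finset (Fin d)) :
    ∀ τ : MultilinearMap F (fun j => Fin (n j) → F) F,
      (∀ u, (∀ j ∈ S, u j ∈ Y j) → τ u = 0) →
      ∃ b : ∀ j, Fin (cd (Y j)) → (∀ l : {l // l ≠ j}, Fin (n l.1)) → F, ∀ x : ∀ j, Fin (n j),
        τ (fun j => Pi.single (x j) 1)
          = ∑ j ∈ S, ∑ i, φ j (Pi.single (x j) 1) i * b j i (fun l => x l.1) := by
  induction S using Finset.induction_on with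
  | empty => exact fun τ h => ⟨fun _ _ _ => 0, fun x => by rw [h _ (by simp)]; simp⟩
  | insert j S hj ih =>
    intro τ h
    let p : ∀ l, (Fin (n l) → F) →ₗ[F] (Fin (n l) → F) :=
      fun l => if l = j then LinearMap.id - g l ∘ₗ φ l else LinearMap.id
    obtain ⟨b, hb⟩ := ih (τ.compLinearMap p) (by
      intro u hu
      refine h _ fun l hl => ?_
      by_cases e : l = j
      · simp only [p, if_pos e]
        rw [← h2]
        simp [h1]
      · simp only [p, if_neg e]
        exact hu l ((mem_insert.1 hl).resolve_left e))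
    refine ⟨Function.update b j fun i z => τ (Function.update
      (fun l => if e : l ≠ j then Pi.single (z ⟨l, e⟩) 1 else 0) j (g j (Pi.single i 1))),
      fun x => ?_⟩
    rw [sum_insert hj, Function.update_self,
      sum_congr (s₁ := S) rfl fun l hl => by rw [Function.update_of_ne (ne_of_mem_of_not_mem hl hj)],
      ← hb]
    have e1 : ∀ v, Function.update (fun l => if _e : l ≠ j then (Pi.single (x l) 1 :
        Fin (n l) → F) else 0) j v = Function.update (fun l => Pi.single (x l) 1) j v := by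
      intro v
      funext l
      by_cases e : l = j
      · subst e; simp
      · simp [e]
    have e2 : (fun l => p l (Pi.single (x l) 1)) = Function.update
        (fun l => (Pi.single (x l) 1 : Fin (n l) → F)) j
        (Pi.single (x j) 1 - g j (φ j (Pi.single (x j) 1))) := by
      funext l
      by_cases e : l = j
      · subst e; simp [p]
      · simp [p, e]
    have e3 : g j (φ j (Pi.single (x j) 1))
        = ∑ i, φ j (Pi.single (x j) 1) i • g j (Pi.single i 1) := by
      simp only [← map_smul, ← map_sum]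
      congr 1
      funext y
      simp [Finset.sum_apply, Pi.single_apply]
    simp only [e1, MultilinearMap.compLinearMap_apply, e2, MultilinearMap.map_update_sub,
      Function.update_eq_self]
    rw [e3, MultilinearMap.map_update_sum]
    simp only [MultilinearMap.map_update_smul, smul_eq_mul]
    ring

theorem result (d k : ℕ) : ∃ C : ℕ, 0 < C ∧ ∀ (F : Type) [Field F] (n : Fin d → ℕ)
    (T : (∀ j, Fin (n j)) → F), SliceRank T k →
    ∃ A : ∀ j, Submodule F (Fin (n j) → F), (∀ j, Module.finrank F (A j) ≤ C) ∧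
      ∀ r a b, IsDec T r a b → ∑ j, r j = k →
        ∀ j, Submodule.span F (Set.range (a j)) ≤ A j := by
  refine ⟨CC d k (k + 1) + 1, by omega, fun F _ n T hT => ?_⟩
  obtain ⟨Z, z1, z2⟩ := bound (form T) (k := k) (by
    intro U hU
    choose φ g h1 h2 using fun j => coords (U j)
    obtain ⟨b, hb⟩ := dec_of U φ g h1 h2 univ (form T) fun u hu => hU u fun j => hu j (mem_univ j)
    exact hT.2 ⟨_, fun j i y => φ j (Pi.single y 1) i, b, fun x => by rw [← hb, form_single], rfl⟩)
  choose φ g h1 h2 using fun j => coords (Z j)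
  refine ⟨fun j => Submodule.span F (Set.range fun i y => φ j (Pi.single y 1) i), fun j => ?_,
    fun r a b h e j => ?_⟩
  · have := finrank_range_le_card (R := F) (fun i y => φ j (Pi.single y 1) i)
    rw [Fintype.card_fin] at this
    exact this.trans ((z1 j).trans (Nat.le_succ _))
  · let α : ∀ j, (Fin (n j) → F) →ₗ[F] (Fin (r j) → F) := fun j => Matrix.toLin' (Matrix.of (a j))
    have hα : ∀ j u i, α j u i = ∑ y, a j i y * u y := fun j u i => rfl
    have hz := z2 (fun j => LinearMap.ker (α j))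
      (fun u hu => null_of h u fun j i => by rw [← hα, LinearMap.mem_ker.1 (hu j)]; rfl)
      (e ▸ sum_le_sum fun j _ => by
        rw [cd, (α j).quotKerEquivRange.finrank_eq]
        simpa using (LinearMap.range (α j)).finrank_le) j
    rw [Submodule.span_le]
    rintro _ ⟨i, rfl⟩
    refine (Submodule.mem_span_range_iff_exists_fun F).2
      ⟨fun t => α j (g j (Pi.single t 1)) i, ?_⟩
    funext y
    have m : Pi.single y 1 - g j (φ j (Pi.single y 1)) ∈ Z j := by
      rw [← h2, map_sub, h1, sub_self]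
    have m2 := congrFun (LinearMap.mem_ker.1 (hz m)) i
    have e3 : g j (φ j (Pi.single y 1)) = ∑ t, φ j (Pi.single y 1) t • g j (Pi.single t 1) := by
      simp only [← map_smul, ← map_sum]
      congr 1
      funext y
      simp [Finset.sum_apply, Pi.single_apply]
    rw [map_sub, e3, map_sum, Pi.sub_apply, hα, Pi.zero_apply, sub_eq_zero] at m2
    simp only [Pi.single_apply, mul_ite, mul_one, mul_zero, sum_ite_eq', mem_univ, if_true,
      map_smul, Finset.sum_apply, Pi.smul_apply, smul_eq_mul] at m2 ⊢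
    rw [m2]
    exact sum_congr rfl fun t _ => mul_comm _ _

end Pool.Agent.Results.MP_f1e34e_co.Bounded
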